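import Pool.Agent.J4.H19.LQ.Main
import Pool.Agent.J4.H19.LP.Ex

/-!
Convex combinations of boundaries.
-/

set_option autoImplicit false
set_option linter.overlappingInstances false
set_option linter.unusedSectionVars false
set_option maxHeartbeats 400000

open FF MvPolynomial IntermediateField Pool.Agent.W603.LV Pool.Agent.W619.PQ
open Pool.Agent.W602.GT Pool.Agent.TH122.AB
open Pool.Agent.Y169.CH Pool.Agent.W602.Cov.G Pool.Agent.W602.Cov Pool.Agent.TH152.AC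
open Pool.Agent.Y169.TH Pool.Agent.Y172 Pool.Agent.R887

namespace Pool.Agent.J4.H19.LC

variable {K : Type} [Field K] [Algebra ℂ K] {N : ℕ} {y : Fin (N + 1) → K}

/-- the combination of divisors -/
def comb {s : ℕ} (Δ : Fin s → Place ℂ K → ℚ) (t : Fin s → ℚ) (P : Place ℂ K) : ℚ :=
  ∑ i, t i * Δ i P

/-- products of forms -/
theorem pluri_prod {n s r : ℕ} {η : Fin s → (Fin n → Derivation ℂ K K) → K}
    (h : ∀ i, IsPluri r (η i)) (p : Fin s → ℕ) : IsPluri (r * ∑ i, p i) fun E => ∏ i, η i E ^ p i := by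
  intro A E
  change ∏ i, η i _ ^ p i = _ * ∏ i, η i E ^ p i
  have h1 : ∀ i, η i (fun i => ∑ j, A i j • E j) ^ p i = A.det ^ (r * p i) * η i E ^ p i := by
    intro i
    rw [h i, mul_pow, ← pow_mul]
  rw [Finset.prod_congr rfl fun i _ => h1 i, Finset.prod_mul_distrib, Finset.prod_pow_eq_pow_sum,
    Finset.mul_sum]

/-- a common denominator -/
theorem exists_num {s : ℕ} {t : Fin s → ℚ} (h0 : ∀ i, 0 ≤ t i) (h1 : ∑ i, t i = 1) :
    ∃ (D : ℕ) (p : Fin s → ℕ), 0 < D ∧ ∑ i, p i = D ∧ ∀ i, (p i : ℚ) = D * t i := by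
  obtain ⟨D, hD, hden⟩ := exists_den t
  choose z hz using hden
  have hD0 : (0 : ℚ) < D := by exact_mod_cast hD
  have hz0 : ∀ i, 0 ≤ z i := by
    intro i
    have h2 : (0 : ℚ) ≤ z i := by
      rw [← hz]
      exact mul_nonneg hD0.le (h0 i)
    exact_mod_cast h2
  have hp : ∀ i, ((z i).toNat : ℚ) = D * t i := by
    intro i
    rw [hz]
    have h2 := Int.toNat_of_nonneg (hz0 i)
    exact_mod_cast h2
  refine ⟨D, fun i => (z i).toNat, hD, ?_, hp⟩
  have h2 : ((∑ i, (z i).toNat : ℕ) : ℚ) = D := by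
    push_cast
    rw [Finset.sum_congr rfl fun i _ => hp i, ← Finset.mul_sum, h1, mul_one]
  exact_mod_cast h2

section

variable {n s : ℕ} {Δ : Fin s → Place ℂ K → ℚ} (hy : NormalModel y)
  (hn : Algebra.trdeg ℂ K = n) {x : Fin n → K} (hx : IsTranscendenceBasis ℂ x)
  {D0 : Fin n → Derivation ℂ K K} (hD : ∀ i j, D0 i (x j) = if i = j then 1 else 0)

include hy hn hx hD

/-- the log discrepancies of a combination -/
theorem ld_comb {r : ℕ} {Q : Place ℂ K} (hQ : Divisorial n Q) {a : Fin s → ℚ}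
    (h : ∀ i, HasLD y n (Δ i) r Q (a i)) {t : Fin s → ℚ} {D : ℕ} {p : Fin s → ℕ}
    (hDp : ∑ i, p i = D) (hp : ∀ i, (p i : ℚ) = D * t i) (ht : ∑ i, t i = 1) :
    HasLD y n (comb Δ t) (r * D) Q (∑ i, t i * a i) := by
  classical
  obtain ⟨hfr, ⟨c, hc⟩, hne⟩ := exists_cc hy hn hx hD
  have hdiv : ∀ P, IsPrimeDivisor y P → Divisorial n P := fun P hP => hP.divisorial hy hn
  choose η hη hηP hηQ using h
  have hηD : ∀ i, η i D0 ≠ 0 := fun i => hne r (η i) (hη i) Q _ (hηQ i)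
  have hk : IsPluri (r * D) fun E => ∏ i, η i E ^ p i := by
    rw [← hDp]
    exact pluri_prod hη p
  have hkD : (fun E => ∏ i, η i E ^ p i) D0 ≠ 0 :=
    Finset.prod_ne_zero_iff.2 fun i _ => pow_ne_zero _ (hηD i)
  have hord : ∀ P : Place ℂ K, ((P.ord ((fun E => ∏ i, η i E ^ p i) D0) : ℤ) : ℚ) =
      ∑ i, (D * t i) * P.ord (η i D0) := by
    intro P
    change ((P.ord (∏ i, η i D0 ^ p i) : ℤ) : ℚ) = _
    rw [Pool.Agent.W619.PQ.ord_prod _ _ _ fun i _ => pow_ne_zero _ (hηD i)]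
    push_cast
    refine Finset.sum_congr rfl fun i _ => ?_
    rw [P.ord_pow, ← hp]
    push_cast
    ring
  have hDt : (D : ℚ) = ∑ i, D * t i := by rw [← Finset.mul_sum, ht, mul_one]
  refine ⟨_, hk, fun P hP hPt => ?_, ?_⟩
  · refine ((hc P (hdiv P hP) _ _ hk _).2 hkD).2 ?_
    have h1 := fun i => ((hc P (hdiv P hP) _ (η i) (hη i) _).2 (hηD i)).1 (hηP i P hP hPt)
    rw [hord]
    unfold comb
    push_cast
    have h2 : (r : ℚ) * D * c P = ∑ i, (D * t i) * (r * c P) := by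
      rw [← Finset.sum_mul, ← hDt]
      ring
    rw [h2, ← Finset.sum_add_distrib, Finset.mul_sum, ← Finset.sum_neg_distrib]
    refine Finset.sum_congr rfl fun i _ => ?_
    linear_combination ((D : ℚ) * t i) * h1 i
  · refine ((hc Q hQ _ _ hk _).2 hkD).2 ?_
    have h1 := fun i => ((hc Q hQ _ (η i) (hη i) _).2 (hηD i)).1 (hηQ i)
    rw [hord]
    push_cast
    have h2 : (r : ℚ) * D * c Q = ∑ i, (D * t i) * (r * c Q) := by
      rw [← Finset.sum_mul, ← hDt]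
      ring
    have h3 : (r : ℚ) * D * (∑ i, t i * a i - 1) = ∑ i, (D * t i) * (r * (a i - 1)) := by
      have h4 : ∑ i, ((D : ℚ) * t i) * (r * (a i - 1)) = r * D * (∑ i, t i * a i) - r * ∑ i, D * t i := by
        rw [Finset.mul_sum, Finset.mul_sum, ← Finset.sum_sub_distrib]
        exact Finset.sum_congr rfl fun i _ => by ring
      rw [h4, ← hDt]
      ring
    rw [h2, ← Finset.sum_add_distrib, h3]
    refine Finset.sum_congr rfl fun i _ => ?_
    linear_combination ((D : ℚ) * t i) * h1 i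

/-- a common index -/
theorem exists_common (hCar : ∀ i, ∃ r : ℕ, 0 < r ∧ ∀ Q, Divisorial n Q →
      ∃ a, HasLD y n (Δ i) r Q a) :
    ∃ r : ℕ, 0 < r ∧ ∃ A : Fin s → Place ℂ K → ℚ, ∀ i Q, Divisorial n Q →
      HasLD y n (Δ i) r Q (A i Q) := by
  classical
  choose r' hr' hCar' using hCar
  obtain ⟨r, hr⟩ : ∃ r : ℕ, r = ∏ i, r' i := ⟨_, rfl⟩
  have hrpos : 0 < r := by
    rw [hr]
    exact Finset.prod_pos fun i _ => hr' i
  have h3 : ∀ i (Q : Place ℂ K), ∃ a : ℚ, Divisorial n Q → HasLD y n (Δ i) r Q a := by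
    intro i Q
    by_cases hQ : Divisorial n Q
    · obtain ⟨a, ha⟩ := hCar' i Q hQ
      obtain ⟨k, hk⟩ : r' i ∣ r := by
        rw [hr]
        exact Finset.dvd_prod_of_mem _ (Finset.mem_univ i)
      rw [hk]
      exact ⟨a, fun _ => ld_mul hy hn hx hD hQ ha k⟩
    · exact ⟨0, fun h => absurd h hQ⟩
  choose A hA using h3
  exact ⟨r, hrpos, A, hA⟩

end

variable {d s : ℕ} {Δ : Fin s → Place ℂ K → ℚ} {F : Fin (d + 2) → MvPolynomial (Fin (d + 2)) ℂ}
  {dF : Fin (d + 2) → ℕ} {x : Fin (d + 2) → K}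

/-- convex combinations of boundaries with the conditions -/
theorem prx_comb (hy : NormalModel y) (hn : Algebra.trdeg ℂ K = ((d + 1 : ℕ) : Cardinal))
    {u : Fin (d + 1) → K} (hu : IsTranscendenceBasis ℂ u)
    {D0 : Fin (d + 1) → Derivation ℂ K K} (hD : ∀ i j, D0 i (u j) = if i = j then 1 else 0)
    (h : ∀ i, PrX F dF x y (Δ i))
    (hCar : ∀ i, ∃ r : ℕ, 0 < r ∧ ∀ Q, Divisorial (d + 1) Q → ∃ a, HasLD y (d + 1) (Δ i) r Q a)
    {t : Fin s → ℚ} (ht0 : ∀ i, 0 ≤ t i) (ht : ∑ i, t i = 1) :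
    PrX F dF x y (comb Δ t) ∧ ∃ r : ℕ, 0 < r ∧ ∀ Q, Divisorial (d + 1) Q →
      ∃ a, HasLD y (d + 1) (comb Δ t) r Q a := by
  classical
  obtain ⟨D, p, hDpos, hDp, hp⟩ := exists_num ht0 ht
  obtain ⟨r, hr, A, hA⟩ := exists_common hy hn hu hD hCar
  have hrD : 0 < r * D := Nat.mul_pos hr hDpos
  have hcomb : ∀ Q, Divisorial (d + 1) Q → HasLD y (d + 1) (comb Δ t) (r * D) Q
      (∑ i, t i * A i Q) := fun Q hQ => ld_comb hy hn hu hD hQ (fun i => hA i Q hQ) hDp hp ht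
  have huniq : ∀ Q, Divisorial (d + 1) Q → ∀ (r' : ℕ) (a : ℚ), 0 < r' →
      HasLD y (d + 1) (comb Δ t) r' Q a → a = ∑ i, t i * A i Q := fun Q hQ r' a hr' ha =>
    ld_uniq hy hn hu hD hr' hrD hQ ha (hcomb Q hQ)
  refine ⟨⟨?_, ?_, ?_, ?_, ?_⟩, r * D, hrD, fun Q hQ => ⟨_, hcomb Q hQ⟩⟩
  · intro Q hQ hQL r' a hr' ha
    rw [huniq Q hQ r' a hr' ha]
    exact Finset.sum_nonneg fun i _ => mul_nonneg (ht0 i) ((h i).a0 Q hQ hQL r _ hr (hA i Q hQ))
  · intro Q hQ hQL hQ0 r' a hr' ha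
    rw [huniq Q hQ r' a hr' ha, ← ht]
    refine Finset.sum_le_sum fun i _ => ?_
    have h1 := (h i).a1 Q hQ hQL hQ0 r _ hr (hA i Q hQ)
    nlinarith [ht0 i]
  · intro P hP hPL hP0 Q hQ hQL g hg hPQ r' a hr' ha
    rw [huniq Q hQ r' a hr' ha]
    unfold comb
    have h2 : (1 : ℚ) - ∑ i, t i * Δ i P = ∑ i, t i * (1 - Δ i P) := by
      rw [← ht, ← Finset.sum_sub_distrib]
      exact Finset.sum_congr rfl fun i _ => by rw [ht]; ring
    rw [h2, Finset.mul_sum]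
    refine Finset.sum_le_sum fun i _ => ?_
    have h1 := (h i).a2 P hP hPL hP0 Q hQ hQL g hg hPQ r _ hr (hA i Q hQ)
    nlinarith [ht0 i]
  · intro P hP hPc
    exact Finset.sum_nonneg fun i _ => mul_nonneg (ht0 i) ((h i).a3 P hP hPc)
  · choose C0 hC0 using fun i => (h i).a5
    refine ⟨∑ i, C0 i, fun P hP => ?_⟩
    unfold comb
    have h2 : (1 : ℚ) - ∑ i, t i * Δ i P = ∑ i, t i * (1 - Δ i P) := by
      rw [← ht, ← Finset.sum_sub_distrib]
      exact Finset.sum_congr rfl fun i _ => by rw [ht]; ring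
    rw [h2]
    push_cast
    refine Finset.sum_le_sum fun i _ => ?_
    have h3 : t i ≤ 1 := by
      rw [← ht]
      exact Finset.single_le_sum (fun j _ => ht0 j) (Finset.mem_univ i)
    have h4 : (0 : ℚ) ≤ C0 i := by positivity
    exact (mul_le_mul_of_nonneg_left (hC0 i P hP) (ht0 i)).trans
      (by nlinarith)

end Pool.Agent.J4.H19.LC
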