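import Pool.Agent.J4.H19.LQ.Cone

/-!
Finite generation of the monoids of the natural solutions of linear equations.
-/

set_option autoImplicit false

namespace Pool.Agent.J4.H19.LC

/-- **Finite generation.** -/
theorem exists_gensN {ι : Type} [Finite ι] (X : Set (ι → ℕ))
    (hsub : ∀ x ∈ X, ∀ w ∈ X, w ≤ x → x - w ∈ X) :
    ∃ G : Finset (ι → ℕ), (∀ g ∈ G, g ∈ X) ∧
      ∀ x ∈ X, x ∈ AddSubmonoid.closure (G : Set (ι → ℕ)) := by
  classical
  have hι := Fintype.ofFinite ι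
  obtain ⟨T, hT1, hT2⟩ := exists_min {x | x ∈ X ∧ x ≠ 0}
  refine ⟨T, fun g hg => (hT1 g hg).1, ?_⟩
  have key : ∀ (n : ℕ) (x : ι → ℕ), x ∈ X → ∑ i, x i ≤ n →
      x ∈ AddSubmonoid.closure (T : Set (ι → ℕ)) := by
    intro n
    induction n with
    | zero =>
      intro x hx hn
      have h1 : x = 0 := by
        funext i
        exact Finset.sum_eq_zero_iff.1 (Nat.le_zero.1 hn) i (Finset.mem_univ i)
      rw [h1]
      exact zero_mem _
    | succ n ih =>
      intro x hx hn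
      by_cases hx0 : x = 0
      · rw [hx0]
        exact zero_mem _
      obtain ⟨t, ht, hle⟩ := hT2 x ⟨hx, hx0⟩
      obtain ⟨h1, h2⟩ := hT1 t ht
      have h3 : x = t + (x - t) := (add_tsub_cancel_of_le hle).symm
      rw [h3]
      refine add_mem (AddSubmonoid.subset_closure ht) (ih _ (hsub x hx t h1 hle) ?_)
      have h4 : ∑ i, x i = ∑ i, t i + ∑ i, (x - t) i := by
        rw [← Finset.sum_add_distrib]
        exact Finset.sum_congr rfl fun i _ => congrFun h3 i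
      have h5 : 1 ≤ ∑ i, t i := by
        by_contra hcon
        apply h2
        funext i
        have h6 : ∑ i, t i = 0 := by omega
        exact Finset.sum_eq_zero_iff.1 h6 i (Finset.mem_univ i)
      omega
  exact fun x hx => key _ x hx le_rfl

/-- the intersection of finitely many rational cones is finitely generated -/
theorem exists_inter {s t0 : ℕ} (e : Fin t0 → Fin s → ℤ) (JJ : Finset (Finset (Fin t0)))
    (hJJ : JJ.Nonempty) :
    ∃ (N : ℕ) (p : Fin N → Fin s → ℤ), ∀ t : Fin s → ℚ,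
      (∀ J ∈ JJ, ∃ T : ℕ, 0 < T ∧ ∃ c : Fin t0 → ℕ, (∀ j, j ∉ J → c j = 0) ∧
        ∀ i, (T : ℚ) * t i = ∑ j, (c j : ℚ) * e j i) ↔
      ∃ b : Fin N → ℚ, (∀ j, 0 ≤ b j) ∧ ∀ i, t i = ∑ j, b j * p j i := by
  classical
  obtain ⟨J0, hJ0⟩ := hJJ
  obtain ⟨X, hX⟩ : ∃ X : Set ({J // J ∈ JJ} × Fin t0 → ℕ), X = {c |
    (∀ J j, j ∉ J.1 → c (J, j) = 0) ∧ ∀ J J' i,
      ∑ j, (c (J, j) : ℤ) * e j i = ∑ j, (c (J', j) : ℤ) * e j i} := ⟨_, rfl⟩
  obtain ⟨G, hG1, hG2⟩ := exists_gensN X (by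
    rw [hX]
    rintro x ⟨hx1, hx2⟩ w ⟨hw1, hw2⟩ hle
    have h1 : ∀ J j, (((x - w) (J, j) : ℕ) : ℤ) = x (J, j) - w (J, j) := by
      intro J j
      rw [Pi.sub_apply, Nat.cast_sub (hle (J, j))]
    refine ⟨fun J j hj => by rw [Pi.sub_apply, hx1 J j hj, Nat.zero_sub], fun J J' i => ?_⟩
    simp only [h1, sub_mul, Finset.sum_sub_distrib]
    rw [hx2 J J' i, hw2 J J' i])
  obtain ⟨N, hN⟩ : ∃ N, N = G.card := ⟨_, rfl⟩
  obtain ⟨en⟩ : Nonempty (Fin N ≃ {g // g ∈ G}) := ⟨(finCongr hN).trans G.equivFin.symm⟩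
  have hGX : ∀ a : Fin N, (en a).1 ∈ X := fun a => hG1 _ (en a).2
  rw [hX] at hGX
  obtain ⟨p, hp⟩ : ∃ p : Fin N → Fin s → ℤ, p = fun a i =>
    ∑ j, ((en a).1 (⟨J0, hJ0⟩, j) : ℤ) * e j i := ⟨_, rfl⟩
  refine ⟨N, p, fun t => ⟨fun h => ?_, fun h => ?_⟩⟩
  · choose! T hT c hc0 hc using h
    obtain ⟨TT, hTT⟩ : ∃ TT : ℕ, TT = ∏ J ∈ JJ, T J := ⟨_, rfl⟩
    have hTTpos : 0 < TT := by
      rw [hTT]
      exact Finset.prod_pos fun J hJ => hT J hJ
    have hdvd : ∀ J ∈ JJ, ∃ k, TT = T J * k := fun J hJ => by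
      rw [hTT]
      exact Finset.dvd_prod_of_mem _ hJ
    choose! k hk using hdvd
    obtain ⟨w, hw⟩ : ∃ w : {J // J ∈ JJ} × Fin t0 → ℕ, w = fun z => k z.1.1 * c z.1.1 z.2 :=
      ⟨_, rfl⟩
    have hsum : ∀ J : {J // J ∈ JJ}, ∀ i, ((∑ j, (w (J, j) : ℤ) * e j i : ℤ) : ℚ) = TT * t i := by
      intro J i
      have h1 := hc J.1 J.2 i
      rw [hw, hk J.1 J.2]
      push_cast
      have h2 : (T J.1 : ℚ) * k J.1 * t i = k J.1 * (T J.1 * t i) := by ring
      rw [h2, h1, Finset.mul_sum]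
      exact Finset.sum_congr rfl fun j _ => by ring
    have hwX : w ∈ X := by
      rw [hX]
      refine ⟨fun J j hj => ?_, fun J J' i => ?_⟩
      · rw [hw]
        change k J.1 * c J.1 j = 0
        rw [hc0 J.1 J.2 j hj, mul_zero]
      · have h1 := hsum J i
        rw [← hsum J' i] at h1
        exact_mod_cast h1
    obtain ⟨a, ha⟩ := AddSubmonoid.mem_closure_finset'.1 (hG2 w hwX)
    have ha' : w = ∑ r : Fin N, a (en r) • (en r).1 := by
      rw [ha]
      exact (Equiv.sum_comp en fun g : {g // g ∈ G} => a g • g.1).symm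
    have hTq : (0 : ℚ) < TT := by exact_mod_cast hTTpos
    refine ⟨fun r => (a (en r) : ℚ) / TT, fun r => by positivity, fun i => ?_⟩
    have h1 := hsum ⟨J0, hJ0⟩ i
    have h2 : ((∑ j, (w (⟨J0, hJ0⟩, j) : ℤ) * e j i : ℤ) : ℚ) =
        ∑ r : Fin N, (a (en r) : ℚ) * p r i := by
      rw [ha', hp]
      push_cast
      simp only [Finset.sum_apply, Pi.smul_apply, smul_eq_mul]
      push_cast
      simp only [Finset.sum_mul, Finset.mul_sum]
      rw [Finset.sum_comm]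
      refine Finset.sum_congr rfl fun r _ => Finset.sum_congr rfl fun j _ => ?_
      ring
    rw [h2] at h1
    have h3 : ∑ r : Fin N, (a (en r) : ℚ) / TT * p r i = (∑ r : Fin N, (a (en r) : ℚ) * p r i) / TT := by
      rw [Finset.sum_div]
      exact Finset.sum_congr rfl fun r _ => by ring
    rw [h3, h1]
    field_simp
  · obtain ⟨b, hb0, hb⟩ := h
    obtain ⟨D, hD, hden⟩ : ∃ D : ℕ, 0 < D ∧ ∀ r, ∃ n : ℕ, (D : ℚ) * b r = n := by
      refine ⟨∏ r, (b r).den, Finset.prod_pos fun r _ => (b r).den_pos, fun r => ?_⟩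
      obtain ⟨k, hk⟩ : (b r).den ∣ ∏ r, (b r).den := Finset.dvd_prod_of_mem _ (Finset.mem_univ r)
      refine ⟨((b r).num.toNat) * k, ?_⟩
      have h1 : (((b r).num.toNat : ℕ) : ℚ) = (b r).num := by
        have h2 := Int.toNat_of_nonneg (Rat.num_nonneg.2 (hb0 r))
        exact_mod_cast h2
      rw [hk]
      push_cast
      rw [h1]
      have h3 := Rat.mul_den_eq_num (b r)
      linear_combination (k : ℚ) * h3
    choose n hn using hden
    intro J hJ
    refine ⟨D, hD, fun j => ∑ r, n r * (en r).1 (⟨J, hJ⟩, j), fun j hj => ?_, fun i => ?_⟩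
    · refine Finset.sum_eq_zero fun r _ => ?_
      rw [(hGX r).1 ⟨J, hJ⟩ j hj, mul_zero]
    · rw [hb, Finset.mul_sum]
      push_cast
      simp only [Finset.sum_mul]
      rw [Finset.sum_comm]
      refine Finset.sum_congr rfl fun r _ => ?_
      have h1 := (hGX r).2 ⟨J0, hJ0⟩ ⟨J, hJ⟩ i
      have h2 : (p r i : ℚ) = ∑ j, ((en r).1 (⟨J, hJ⟩, j) : ℚ) * e j i := by
        rw [hp]
        simp only
        rw [h1]
        push_cast
        rfl
      rw [← mul_assoc, hn, h2, Finset.mul_sum]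
      exact Finset.sum_congr rfl fun j _ => by ring

end Pool.Agent.J4.H19.LC
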