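import Pool.Agent.J4.H19.LS.Dick
import Pool.Agent.J4.H19.LS.Comb
import Pool.Agent.J4.H19.LR.Main

/-!
The cone of the nef uniform divisors.
-/

set_option autoImplicit false
set_option linter.overlappingInstances false
set_option linter.unusedSectionVars false
set_option maxHeartbeats 400000

open FF MvPolynomial IntermediateField Pool.Agent.W603.LV Pool.Agent.W619.PQ
open Pool.Agent.W602.GT Pool.Agent.TH122.AB
open Pool.Agent.Y169.CH Pool.Agent.W602.Cov.G Pool.Agent.W602.Cov Pool.Agent.TH152.AC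
open Pool.Agent.Y169.TH Pool.Agent.Y172 Pool.Agent.R887

namespace Pool.Agent.J4.H19.LC

section

variable {K : Type} [Field K] [Algebra ℂ K] {N : ℕ} {y : Fin (N + 1) → K} {n s : ℕ}
  {L : Fin s → Place ℂ K → ℚ}

/-- `f` is a section of `∑ i, m i * L i` -/
def ZSec (y : Fin (N + 1) → K) (L : Fin s → Place ℂ K → ℚ) (m : Fin s → ℤ) (f : K) : Prop :=
  f = 0 ∨ ∀ P, IsPrimeDivisor y P → -(∑ i, (m i : ℚ) * L i P) ≤ (P.ord f : ℚ)

/-- semiample divisors -/
def SemiF (y : Fin (N + 1) → K) (n : ℕ) (L : Place ℂ K → ℚ) : Prop :=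
  ∃ T : ℕ, 0 < T ∧ ∀ Q : Place ℂ K, Divisorial n Q → ∃ f : K, f ≠ 0 ∧
      (∀ P, IsPrimeDivisor y P → -(T * L P) ≤ (P.ord f : ℚ)) ∧
      ∀ P, IsPrimeDivisor y P → Through y P Q → (P.ord f : ℚ) = -(T * L P)

/-- semiample divisors are nef -/
theorem nef_of_semi (hy : NormalModel y) {L : Place ℂ K → ℚ} (h : SemiF y n L) : NefF y n L := by
  obtain ⟨T, hT, h1⟩ := h
  intro i hi q hq
  refine ⟨T, hT, fun Q hQ => ?_⟩
  obtain ⟨f, hf, h2, h3⟩ := h1 Q hQ
  obtain ⟨l0, hl0⟩ := exists_centred hy Q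
  have hg : y l0 / y i ≠ 0 := div_ne_zero hl0.1 hi
  have hne : f ^ q * (y l0 / y i) ^ T ≠ 0 := mul_ne_zero (pow_ne_zero _ hf) (pow_ne_zero _ hg)
  have ho : ∀ P : Place ℂ K, ∀ l, y l ≠ 0 → ((P.ord (f ^ q * (y l0 / y i) ^ T) : ℤ) : ℚ) =
      q * P.ord f + T * P.ord (y l0 / y l) - T * P.ord (y i / y l) := by
    intro P l hl
    rw [P.ord_mul (pow_ne_zero _ hf) (pow_ne_zero _ hg), P.ord_pow, P.ord_pow, P.ord_div hl0.1 hi,
      P.ord_div hl0.1 hl, P.ord_div hi hl]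
    push_cast
    ring
  refine ⟨f ^ q * (y l0 / y i) ^ T, hne, fun P l hP hl => ?_, fun P l hP hPt hl => ?_⟩
  · rw [ho P l hl.1]
    have h4 := h2 P hP
    have h5 : (0 : ℚ) ≤ P.ord (y l0 / y l) := by
      exact_mod_cast (P.reg_iff (div_ne_zero hl0.1 hl.1)).1 (hl.2 l0)
    have h6 : (0 : ℚ) ≤ T * P.ord (y l0 / y l) := by positivity
    have h7 : (0 : ℚ) ≤ q := by positivity
    push_cast
    nlinarith [mul_le_mul_of_nonneg_left h4 h7]
  · rw [ho P l hl.1, h3 P hP hPt]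
    have h5 := (P.reg_iff (div_ne_zero hl0.1 hl.1)).1 (hl.2 l0)
    have h6 := (P.reg_iff (div_ne_zero hl.1 hl0.1)).1 ((hPt.centred hl0).2 l)
    have h7 : P.ord (y l0 / y l) = 0 := by
      have h8 : y l / y l0 = (y l0 / y l)⁻¹ := by rw [inv_div]
      rw [h8, P.ord_inv] at h6
      omega
    rw [h7]
    push_cast
    ring

/-- one of the monomials generates the sheaf -/
theorem exists_mono (hy : NormalModel y) {t0 : ℕ} {e : Fin t0 → Fin s → ℤ} {σ : Fin t0 → K}
    (hσ : ∀ j, ZSec y L (e j) (σ j)) {m : Fin s → ℤ} {f : K} (hf0 : f ≠ 0)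
    (hf : f ∈ Submodule.span ℂ {g : K | ∃ c : Fin t0 → ℕ, ∑ j, c j • e j = m ∧
      g = ∏ j, σ j ^ c j})
    {Q : Place ℂ K} (hgen : ∀ P, IsPrimeDivisor y P → Through y P Q →
      (P.ord f : ℚ) = -(∑ i, (m i : ℚ) * L i P)) :
    ∃ c : Fin t0 → ℕ, ∑ j, c j • e j = m ∧ ∀ j, c j ≠ 0 → σ j ≠ 0 ∧
      ∀ P, IsPrimeDivisor y P → Through y P Q → (P.ord (σ j) : ℚ) = -(∑ i, (e j i : ℚ) * L i P) := by
  classical
  -- the degrees
  have hdeg : ∀ (c : Fin t0 → ℕ), ∑ j, c j • e j = m → ∀ P : Place ℂ K,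
      ∑ i, (m i : ℚ) * L i P = ∑ j, (c j : ℚ) * ∑ i, (e j i : ℚ) * L i P := by
    intro c hc P
    rw [← hc]
    simp only [Finset.sum_apply, Pi.smul_apply, Finset.mul_sum]
    rw [Finset.sum_comm]
    refine Finset.sum_congr rfl fun i _ => ?_
    push_cast
    rw [Finset.sum_mul]
    refine Finset.sum_congr rfl fun j _ => ?_
    simp only [nsmul_eq_mul]
    push_cast
    ring
  -- the quotients are in the local ring
  have hloc : ∀ c : Fin t0 → ℕ, ∑ j, c j • e j = m → (∏ j, σ j ^ c j) ≠ 0 →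
      (∏ j, σ j ^ c j) / f ∈ localRing y Q := by
    intro c hc hc0
    refine mem_localRing_of_reg hy fun P hP hPt => Or.inr ?_
    rw [P.ord_div hc0 hf0]
    rw [Finset.prod_ne_zero_iff] at hc0
    rw [Pool.Agent.W619.PQ.ord_prod _ _ _ hc0]
    have h1 := hgen P hP hPt
    have h2 : (0 : ℚ) ≤ ((∑ j, P.ord (σ j ^ c j) - P.ord f : ℤ) : ℚ) := by
      push_cast
      rw [h1, hdeg c hc P, sub_neg_eq_add, ← Finset.sum_add_distrib]
      refine Finset.sum_nonneg fun j _ => ?_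
      rw [P.ord_pow]
      push_cast
      rw [← mul_add]
      by_cases hcj : c j = 0
      · rw [hcj]
        simp
      have h3 : σ j ≠ 0 := fun h4 => hc0 j (Finset.mem_univ j) (by rw [h4, zero_pow hcj])
      have h5 := (hσ j).resolve_left h3 P hP
      exact mul_nonneg (by positivity) (by linarith)
    exact_mod_cast h2
  -- a monomial of order zero
  obtain ⟨c, hc, hc0, hcQ⟩ : ∃ c : Fin t0 → ℕ, ∑ j, c j • e j = m ∧ (∏ j, σ j ^ c j) ≠ 0 ∧
      Q.ord ((∏ j, σ j ^ c j) / f) = 0 := by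
    by_contra hcon
    push Not at hcon
    have h1 : ∀ g ∈ Submodule.span ℂ {g : K | ∃ c : Fin t0 → ℕ, ∑ j, c j • e j = m ∧
        g = ∏ j, σ j ^ c j}, Ge Q 1 (g / f) := by
      intro g hg
      induction hg using Submodule.span_induction with
      | mem g hg =>
        obtain ⟨c, hc, rfl⟩ := hg
        by_cases h2 : (∏ j, σ j ^ c j) = 0
        · rw [h2, zero_div]
          exact Or.inl rfl
        · have h3 := hcon c hc h2
          have h4 := (Q.reg_iff (div_ne_zero h2 hf0)).1 (localRing_reg (hloc c hc h2))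
          right
          omega
      | zero =>
        rw [zero_div]
        exact Or.inl rfl
      | add g g' _ _ h3 h4 =>
        rw [add_div]
        exact h3.add h4
      | smul b g _ h3 =>
        rw [smul_div_assoc, Algebra.smul_def]
        have h4 := (Ge.const (P := Q) b).mul h3
        simpa using h4
    have h2 := h1 f hf
    rw [div_self hf0] at h2
    rcases h2 with h2 | h2
    · exact one_ne_zero h2
    · rw [Q.ord_one] at h2
      omega
  refine ⟨c, hc, fun j hj => ?_⟩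
  have hc0' := hc0
  rw [Finset.prod_ne_zero_iff] at hc0'
  have hσj : ∀ j, c j ≠ 0 → σ j ≠ 0 := fun j hj h4 =>
    hc0' j (Finset.mem_univ j) (by rw [h4, zero_pow hj])
  refine ⟨hσj j hj, fun P hP hPt => ?_⟩
  have hw0 : (∏ j, σ j ^ c j) / f ≠ 0 := div_ne_zero hc0 hf0
  have hmem := hloc c hc hc0
  have h1 := hPt _ (inv_localRing hmem hw0 hcQ)
  have h2 := hPt _ hmem
  rw [P.reg_iff (inv_ne_zero hw0), P.ord_inv] at h1
  rw [P.reg_iff hw0] at h2
  have h3 : P.ord ((∏ j, σ j ^ c j) / f) = 0 := by omega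
  rw [P.ord_div hc0 hf0, Pool.Agent.W619.PQ.ord_prod _ _ _ hc0'] at h3
  have h4 : ∑ j, (c j : ℚ) * (P.ord (σ j) + ∑ i, (e j i : ℚ) * L i P) = 0 := by
    have h5 : ((∑ j, P.ord (σ j ^ c j) - P.ord f : ℤ) : ℚ) = 0 := by exact_mod_cast h3
    push_cast at h5
    rw [hgen P hP hPt, hdeg c hc P, sub_neg_eq_add, ← Finset.sum_add_distrib] at h5
    rw [← h5]
    refine Finset.sum_congr rfl fun j _ => ?_
    rw [P.ord_pow]
    push_cast
    ring
  rw [Finset.sum_eq_zero_iff_of_nonneg] at h4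
  · have h5 := h4 j (Finset.mem_univ j)
    have h6 : (c j : ℚ) ≠ 0 := by exact_mod_cast hj
    have h7 := (mul_eq_zero.1 h5).resolve_left h6
    linarith
  · intro j _
    by_cases hcj : c j = 0
    · rw [hcj]
      simp
    have h5 := (hσ j).resolve_left (hσj j hcj) P hP
    exact mul_nonneg (by positivity) (by linarith)

/-- **The nef cone.** -/
theorem nef_cone (hy : NormalModel y) (hQ0 : ∃ Q : Place ℂ K, Divisorial n Q)
    (hsemi : ∀ t : Fin s → ℚ, NefF y n (comb L t) → SemiF y n (comb L t))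
    (hcox : ∃ (t0 : ℕ) (e : Fin t0 → Fin s → ℤ) (σ : Fin t0 → K), (∀ j, ZSec y L (e j) (σ j)) ∧
      ∀ m f, ZSec y L m f → f ∈ Submodule.span ℂ {g : K | ∃ c : Fin t0 → ℕ, ∑ j, c j • e j = m ∧
        g = ∏ j, σ j ^ c j}) :
    ∃ (N : ℕ) (p : Fin N → Fin s → ℤ), ∀ t : Fin s → ℚ,
      (NefF y n (comb L t) ↔ ∃ b : Fin N → ℚ, (∀ j, 0 ≤ b j) ∧ ∀ i, t i = ∑ j, b j * p j i) ∧
      (NefF y n (comb L t) → SemiF y n (comb L t)) := by
  classical
  obtain ⟨t0, e, σ, hσ, hspan⟩ := hcox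
  obtain ⟨JQ, hJQ⟩ : ∃ JQ : Place ℂ K → Finset (Fin t0), JQ = fun Q => Finset.univ.filter fun j =>
    σ j ≠ 0 ∧ ∀ P, IsPrimeDivisor y P → Through y P Q →
      (P.ord (σ j) : ℚ) = -(∑ i, (e j i : ℚ) * L i P) := ⟨_, rfl⟩
  have hJ : ∀ Q j, j ∈ JQ Q ↔ (σ j ≠ 0 ∧ ∀ P, IsPrimeDivisor y P → Through y P Q →
      (P.ord (σ j) : ℚ) = -(∑ i, (e j i : ℚ) * L i P)) := by
    intro Q j
    rw [hJQ]
    simp only [Finset.mem_filter, Finset.mem_univ, true_and]
  obtain ⟨JJ, hJJ⟩ : ∃ JJ : Finset (Finset (Fin t0)), JJ = Finset.univ.filter fun J =>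
    ∃ Q, Divisorial n Q ∧ J = JQ Q := ⟨_, rfl⟩
  have hJJm : ∀ J, J ∈ JJ ↔ ∃ Q, Divisorial n Q ∧ J = JQ Q := by
    intro J
    rw [hJJ]
    simp only [Finset.mem_filter, Finset.mem_univ, true_and]
  have hne : JJ.Nonempty := by
    obtain ⟨Q, hQ⟩ := hQ0
    exact ⟨JQ Q, (hJJm _).2 ⟨Q, hQ, rfl⟩⟩
  obtain ⟨N, p, hp⟩ := exists_inter e JJ hne
  refine ⟨N, p, fun t => ⟨?_, hsemi t⟩⟩
  rw [← hp]
  constructor
  · intro hnef J hJ'
    obtain ⟨Q, hQ, rfl⟩ := (hJJm J).1 hJ'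
    obtain ⟨T, hT, h1⟩ := hsemi t hnef
    obtain ⟨f, hf, h2, h3⟩ := h1 Q hQ
    obtain ⟨D, hD, hden⟩ := exists_den t
    choose z hz using hden
    have hD0 : (0 : ℚ) < D := by exact_mod_cast hD
    have hTm : ∀ P : Place ℂ K, ∑ i, (((fun i => (T : ℤ) * z i) i : ℤ) : ℚ) * L i P =
        D * (T * comb L t P) := by
      intro P
      unfold comb
      rw [Finset.mul_sum, Finset.mul_sum]
      refine Finset.sum_congr rfl fun i _ => ?_
      push_cast
      rw [← hz]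
      ring
    have hfz : ZSec y L (fun i => (T : ℤ) * z i) (f ^ D) := by
      right
      intro P hP
      rw [hTm, P.ord_pow]
      push_cast
      have := mul_le_mul_of_nonneg_left (h2 P hP) hD0.le
      linarith
    obtain ⟨c, hc, hcj⟩ := exists_mono hy hσ (pow_ne_zero D hf) (hspan _ _ hfz) (Q := Q)
      (fun P hP hPt => by
        rw [hTm, P.ord_pow]
        push_cast
        rw [h3 P hP hPt]
        ring)
    refine ⟨T * D, Nat.mul_pos hT hD, c, fun j hj => ?_, fun i => ?_⟩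
    · by_contra h4
      exact hj ((hJ Q j).2 (hcj j h4))
    · have h4 := congrFun hc i
      rw [Finset.sum_apply] at h4
      have h5 : ((∑ j, (c j • e j) i : ℤ) : ℚ) = (((T : ℤ) * z i : ℤ) : ℚ) := by
        rw [h4]
      push_cast at h5
      rw [← hz] at h5
      push_cast
      rw [mul_assoc, ← h5]
      refine Finset.sum_congr rfl fun j _ => ?_
      rw [Pi.smul_apply, nsmul_eq_mul]
      push_cast
      ring
  · intro h
    apply nef_of_semi hy
    choose! T hT c hc0 hc using h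
    obtain ⟨TT, hTT⟩ : ∃ TT : ℕ, TT = ∏ J ∈ JJ, T J := ⟨_, rfl⟩
    have hTTpos : 0 < TT := by
      rw [hTT]
      exact Finset.prod_pos fun J hJ => hT J hJ
    refine ⟨TT, hTTpos, fun Q hQ => ?_⟩
    have hQJ : JQ Q ∈ JJ := (hJJm _).2 ⟨Q, hQ, rfl⟩
    obtain ⟨k, hk⟩ : T (JQ Q) ∣ TT := by
      rw [hTT]
      exact Finset.dvd_prod_of_mem _ hQJ
    have hcσ : ∀ j, c (JQ Q) j ≠ 0 → j ∈ JQ Q := fun j hj => by
      by_contra h4
      exact hj (hc0 _ hQJ j h4)
    have hne' : ∀ j ∈ Finset.univ, σ j ^ (k * c (JQ Q) j) ≠ 0 := by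
      intro j _
      by_cases hj : c (JQ Q) j = 0
      · rw [hj, mul_zero, pow_zero]
        exact one_ne_zero
      · exact pow_ne_zero _ ((hJ Q j).1 (hcσ j hj)).1
    have hord : ∀ P : Place ℂ K, ((P.ord (∏ j, σ j ^ (k * c (JQ Q) j)) : ℤ) : ℚ) =
        k * ∑ j, (c (JQ Q) j : ℚ) * P.ord (σ j) := by
      intro P
      rw [Pool.Agent.W619.PQ.ord_prod _ _ _ hne', Finset.mul_sum]
      push_cast
      refine Finset.sum_congr rfl fun j _ => ?_
      rw [P.ord_pow]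
      push_cast
      ring
    have hdeg : ∀ P : Place ℂ K, (TT : ℚ) * comb L t P =
        k * ∑ j, (c (JQ Q) j : ℚ) * ∑ i, (e j i : ℚ) * L i P := by
      intro P
      unfold comb
      rw [hk]
      push_cast
      have h4 : ∀ i, (T (JQ Q) : ℚ) * k * (t i * L i P) = k * ((∑ j, (c (JQ Q) j : ℚ) * e j i) * L i P) := by
        intro i
        rw [← hc _ hQJ i]
        ring
      rw [Finset.mul_sum, Finset.sum_congr rfl fun i _ => h4 i, ← Finset.mul_sum]
      congr 1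
      simp only [Finset.sum_mul, Finset.mul_sum]
      rw [Finset.sum_comm]
      refine Finset.sum_congr rfl fun j _ => Finset.sum_congr rfl fun i _ => ?_
      ring
    refine ⟨∏ j, σ j ^ (k * c (JQ Q) j), Finset.prod_ne_zero_iff.2 hne', fun P hP => ?_,
      fun P hP hPt => ?_⟩
    · rw [hord, hdeg, ← mul_neg, ← Finset.sum_neg_distrib]
      refine mul_le_mul_of_nonneg_left (Finset.sum_le_sum fun j _ => ?_) (by positivity)
      by_cases hj : c (JQ Q) j = 0
      · rw [hj]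
        simp
      have h5 := (hσ j).resolve_left ((hJ Q j).1 (hcσ j hj)).1 P hP
      rw [← mul_neg]
      exact mul_le_mul_of_nonneg_left h5 (by positivity)
    · rw [hord, hdeg, ← mul_neg, ← Finset.sum_neg_distrib]
      congr 1
      refine Finset.sum_congr rfl fun j _ => ?_
      by_cases hj : c (JQ Q) j = 0
      · rw [hj]
        simp
      rw [((hJ Q j).1 (hcσ j hj)).2 P hP hPt]
      ring

end

end Pool.Agent.J4.H19.LC
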