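import Pool.Agent.J4.H19.LS.NefC

/-!
The cone of the nef uniform divisors on models with trivial canonical class.
-/

set_option autoImplicit false
set_option linter.overlappingInstances false
set_option linter.unusedSectionVars false
set_option maxHeartbeats 400000

open FF MvPolynomial IntermediateField Pool.Agent.W603.LV Pool.Agent.W619.PQ
open Pool.Agent.W602.GT Pool.Agent.TH122.AB
open Pool.Agent.Y169.CH Pool.Agent.W602.Cov.G Pool.Agent.W602.Cov Pool.Agent.TH152.AC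
open Pool.Agent.Y169.TH Pool.Agent.Y172 Pool.Agent.R887

namespace Pool.Agent.J4.H19.LC

section

variable {d R : ℕ} {K : Type} [Field K] [Algebra ℂ K] {N : ℕ} {y : Fin (N + 1) → K}
  {x : Fin (d + 2) → K} {F : Fin (d + 2) → MvPolynomial (Fin (d + 2)) ℂ} {dF : Fin (d + 2) → ℕ}
  {s : ℕ} {L : Fin s → Place ℂ K → ℚ}

/-- combinations of uniform divisors -/
theorem unx_comb (h : ∀ i, UnX F dF x y (L i)) (t : Fin s → ℚ) : UnX F dF x y (comb L t) := by
  refine ⟨(Set.finite_iUnion fun i => (h i).fin).subset ?_, fun P P' hP hP' hv => ?_,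
    fun P hP hv => ?_⟩
  · rintro P ⟨hP, hP0⟩
    by_contra hcon
    rw [Set.mem_iUnion] at hcon
    push Not at hcon
    apply hP0
    refine Finset.sum_eq_zero fun i _ => ?_
    have h4 : L i P = 0 := by
      by_contra h5
      exact hcon i ⟨hP, h5⟩
    rw [h4, mul_zero]
  · exact Finset.sum_congr rfl fun i _ => by rw [(h i).u1 P P' hP hP' hv]
  · exact Finset.sum_eq_zero fun i _ => by rw [(h i).u0 P hP hv, mul_zero]

variable (hx0 : x 0 ≠ 0)
    (hbas : IsTranscendenceBasis ℂ fun b : Fin (d + 1) => x b.succ / x 0)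
    (hd : ∀ k, 0 < dF k)
    (hh : ∀ k, (F k).IsHomogeneous (dF k)) (hF0 : ∀ k, F k ≠ 0) (hN : Noc F) (hL : Lca F)
    {z : Fin R → K} {M : Fin R → ℕ} (hM : ∀ j, 0 < M j) {a : Fin R → Fin (d + 2) → ℕ}
    (hz : ∀ j, z j ^ M j = ∏ k, (aeval x (F k) / x 0 ^ dF k) ^ a j k)
    (hdiv : ∀ j, M j ∣ ∑ k, a j k * dF k)
    (hgen : IntermediateField.adjoin ℂ
      (Set.range (fun b : Fin (d + 1) => x b.succ / x 0) ∪ Set.range z) = ⊤)

include hx0 hbas hd hh hF0 hN hL hM hz hdiv hgen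

/-- Cox rings graded by `ℤ ^ s` -/
theorem main_coxZ (hy : NormalModel y) {r : ℕ} (hr : 0 < r)
    {η : (Fin (d + 1) → Derivation ℂ K K) → K} (hη : Tri y (d + 1) r η)
    (h : ∀ i, UnX F dF x y (L i)) :
    ∃ (t0 : ℕ) (e : Fin t0 → Fin s → ℤ) (σ : Fin t0 → K), (∀ j, ZSec y L (e j) (σ j)) ∧
      ∀ m f, ZSec y L m f → f ∈ Submodule.span ℂ {g : K | ∃ c : Fin t0 → ℕ, ∑ j, c j • e j = m ∧
        g = ∏ j, σ j ^ c j} := by
  classical
  obtain ⟨w, hw⟩ : ∃ w : Fin (s + s) → (Fin s → ℤ), w = fun j => Fin.append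
    (fun i : Fin s => Pi.single i (1 : ℤ)) (fun i : Fin s => Pi.single i (-1 : ℤ)) j := ⟨_, rfl⟩
  have hw1 : ∀ i, w (Fin.castAdd s i) = Pi.single i (1 : ℤ) := fun i => by
    rw [hw]
    exact Fin.append_left _ _ i
  have hw2 : ∀ i, w (Fin.natAdd s i) = Pi.single i (-1 : ℤ) := fun i => by
    rw [hw]
    exact Fin.append_right _ _ i
  have hsing : ∀ (c : Fin s → ℕ) (a : ℤ) (i : Fin s),
      (∑ i', c i' • (Pi.single i' a : Fin s → ℤ)) i = c i * a := by
    intro c a i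
    rw [Finset.sum_apply, Finset.sum_eq_single i]
    · rw [Pi.smul_apply, Pi.single_eq_same, nsmul_eq_mul]
    · intro j _ hj
      rw [Pi.smul_apply, Pi.single_eq_of_ne hj.symm, smul_zero]
    · intro h1
      exact absurd (Finset.mem_univ i) h1
  have hmS : ∀ v : Fin s → ℤ, ∃ c : Fin (s + s) → ℕ, ∑ j, c j • w j = v := by
    intro v
    refine ⟨Fin.append (fun i => (v i).toNat) (fun i => (-v i).toNat), ?_⟩
    rw [Fin.sum_univ_add]
    funext i
    simp only [Fin.append_left, Fin.append_right, hw1, hw2]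
    rw [Pi.add_apply, hsing, hsing]
    omega
  obtain ⟨L', hL'⟩ : ∃ L' : Fin (s + s) → Place ℂ K → ℚ, L' = fun j =>
      comb L fun i => (w j i : ℚ) := ⟨_, rfl⟩
  have hU : ∀ j, UnX F dF x y (L' j) := by
    intro j
    rw [hL']
    exact unx_comb h _
  obtain ⟨t', e', τ, hτ, hspan⟩ := main_cox hx0 hbas hd hh hF0 hN hL hM hz
    hdiv hgen hy hr hη hU
  have hsum : ∀ (c : Fin (s + s) → ℕ) (P : Place ℂ K), ∑ j, (c j : ℚ) * L' j P =
      ∑ i, (((∑ j, c j • w j) i : ℤ) : ℚ) * L i P := by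
    intro c P
    rw [hL']
    unfold comb
    simp only [Finset.sum_apply, Pi.smul_apply, Finset.mul_sum]
    rw [Finset.sum_comm]
    refine Finset.sum_congr rfl fun i _ => ?_
    push_cast
    rw [Finset.sum_mul]
    refine Finset.sum_congr rfl fun j _ => ?_
    simp only [nsmul_eq_mul]
    push_cast
    ring
  refine ⟨t', fun l => ∑ j, e' l j • w j, τ, fun l => ?_, fun v f hf => ?_⟩
  · refine (hτ l).imp id fun h1 P hP => ?_
    rw [← hsum]
    exact h1 P hP
  · obtain ⟨c, hc⟩ := hmS v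
    have hf' : FSec y L' c f := by
      refine hf.imp id fun h1 P hP => ?_
      rw [hsum, hc]
      exact h1 P hP
    refine Submodule.span_mono ?_ (hspan c _ hf')
    rintro _ ⟨b, hb, rfl⟩
    refine ⟨b, ?_, rfl⟩
    rw [← hc, ← hb]
    simp only [Finset.smul_sum]
    rw [Finset.sum_comm]
    refine Finset.sum_congr rfl fun j _ => ?_
    rw [Finset.sum_apply, Finset.sum_smul]
    refine Finset.sum_congr rfl fun l _ => ?_
    rw [Pi.smul_apply, smul_smul, smul_eq_mul]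

/-- **The cone of the nef uniform divisors.** -/
theorem main_nefC (hy : NormalModel y) {r : ℕ} (hr : 0 < r)
    {η : (Fin (d + 1) → Derivation ℂ K K) → K} (hη : Tri y (d + 1) r η)
    (h : ∀ i, UnX F dF x y (L i)) :
    ∃ (N : ℕ) (p : Fin N → Fin s → ℤ), ∀ t : Fin s → ℚ,
      (NefF y (d + 1) (comb L t) ↔ ∃ b : Fin N → ℚ, (∀ j, 0 ≤ b j) ∧
        ∀ i, t i = ∑ j, b j * p j i) ∧
      (NefF y (d + 1) (comb L t) → SemiF y (d + 1) (comb L t)) := by
  obtain ⟨Q0, hQ0⟩ : ∃ Q : Place ℂ K, Divisorial (d + 1) Q := by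
    obtain ⟨Φ, rfl, C, rfl, rfl, ρ, -⟩ := exists_cvx hx0 hbas hd hh hF0 hN hL hM hz hdiv hgen
    exact C.exists_div
  exact nef_cone hy ⟨Q0, hQ0⟩ (fun t ht => main_nefT hx0 hbas hd hh hF0 hN hL hM hz hdiv hgen hy hr
    hη (unx_comb h t) ht) (main_coxZ hx0 hbas hd hh hF0 hN hL hM hz hdiv hgen hy hr hη h)

end

end Pool.Agent.J4.H19.LC
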