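import Pool.Agent.J4.H19.LS.Comb
import Mathlib.Analysis.Convex.Hull

/-!
The polytope of the pseudo-effective adjoint divisors.
-/

set_option autoImplicit false
set_option linter.overlappingInstances false
set_option linter.unusedSectionVars false
set_option maxHeartbeats 400000

open FF MvPolynomial IntermediateField Pool.Agent.W603.LV Pool.Agent.W619.PQ
open Pool.Agent.W602.GT Pool.Agent.TH122.AB
open Pool.Agent.Y169.CH Pool.Agent.W602.Cov.G Pool.Agent.W602.Cov Pool.Agent.TH152.AC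
open Pool.Agent.Y169.TH Pool.Agent.Y172 Pool.Agent.R887

namespace Pool.Agent.J4.H19.LC

section

variable {K : Type} [Field K] [Algebra ℂ K] {N : ℕ} {y : Fin (N + 1) → K} {n : ℕ}

/-- a multiple of `K_Y + Δ` is effective -/
def QEff (y : Fin (N + 1) → K) (n : ℕ) (Δ : Place ℂ K → ℚ) : Prop :=
  ∃ r : ℕ, 0 < r ∧ ∃ ω : (Fin n → Derivation ℂ K K) → K, ω ≠ 0 ∧ IsPluri r ω ∧
    ∀ P, IsPrimeDivisor y P → OrdGe P ω (-(r * Δ P))

/-- `K_Y + Δ` is pseudo-effective -/
def PsefP (y : Fin (N + 1) → K) (n : ℕ) (Δ : Place ℂ K → ℚ) : Prop :=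
  ∃ i, y i ≠ 0 ∧ ∀ M' : ℕ, 1 ≤ M' → ∃ j : ℕ, 1 ≤ j ∧
    ∃ ω : (Fin n → Derivation ℂ K K) → K, ω ≠ 0 ∧ IsTwistedSectionP y i n Δ (j * M') j ω

variable (hy : NormalModel y)
  (hn : Algebra.trdeg ℂ K = n) {x : Fin n → K} (hx : IsTranscendenceBasis ℂ x)
  {D0 : Fin n → Derivation ℂ K K} (hD : ∀ i j, D0 i (x j) = if i = j then 1 else 0)

include hy hn hx hD

theorem psef_of_qeff {Δ : Place ℂ K → ℚ} (h : QEff y n Δ) : PsefP y n Δ := by
  classical
  obtain ⟨hfr, ⟨c, hc⟩, hne⟩ := exists_cc hy hn hx hD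
  have hdiv : ∀ P, IsPrimeDivisor y P → Divisorial n P := fun P hP => hP.divisorial hy hn
  obtain ⟨r, hr, ω, hω0, hω, hωP⟩ := h
  have hωD : ω D0 ≠ 0 := fun h0 => hω0 (pluri_zero hfr hω h0)
  obtain ⟨i, hi⟩ := hy.ne
  refine ⟨i, hi, fun M hM => ⟨r, hr, fun E => ω E ^ M, fun h0 => ?_, pluri_pow hω M,
    fun P l hP hl => ?_⟩⟩
  · exact pow_ne_zero M hωD (congrFun h0 D0)
  · refine (hc P (hdiv P hP) _ _ (pluri_pow hω M) _).1.2 (Or.inr ?_)
    have h1 := ((hc P (hdiv P hP) _ ω hω _).1.1 (hωP P hP)).resolve_left hωD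
    change _ ≤ _ + ((P.ord (ω D0 ^ M) : ℤ) : ℚ)
    rw [P.ord_pow]
    have hyl : y i / y l ≠ 0 := div_ne_zero hi hl.1
    have h2 : 0 ≤ P.ord (y i / y l) := (P.reg_iff hyl).1 (hl.2 i)
    have h3 : (0 : ℚ) ≤ (r : ℚ) * P.ord (y i / y l) := by
      have : (0 : ℚ) ≤ (P.ord (y i / y l) : ℚ) := by exact_mod_cast h2
      positivity
    have h4 : (0 : ℚ) ≤ M := by positivity
    push_cast
    nlinarith [mul_le_mul_of_nonneg_left h1 h4]

theorem qeff_conv {Δ Δ' : Place ℂ K → ℚ} (h : QEff y n Δ) (h' : QEff y n Δ') {a b : ℚ}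
    (ha : 0 ≤ a) (hb : 0 ≤ b) (hab : a + b = 1) : QEff y n fun P => a * Δ P + b * Δ' P := by
  classical
  obtain ⟨hfr, ⟨c, hc⟩, hne⟩ := exists_cc hy hn hx hD
  have hdiv : ∀ P, IsPrimeDivisor y P → Divisorial n P := fun P hP => hP.divisorial hy hn
  obtain ⟨r, hr, ω, hω0, hω, hωP⟩ := h
  obtain ⟨r', hr', ω', hω0', hω', hωP'⟩ := h'
  have hωD : ω D0 ≠ 0 := fun h0 => hω0 (pluri_zero hfr hω h0)
  have hωD' : ω' D0 ≠ 0 := fun h0 => hω0' (pluri_zero hfr hω' h0)
  obtain ⟨D, p, hDpos, hDp, hp⟩ := exists_num (s := 2) (t := ![a, b])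
    (by intro i; fin_cases i <;> simpa) (by simpa [Fin.sum_univ_two] using hab)
  have hpa : ((p 0 : ℕ) : ℚ) = D * a := by simpa using hp 0
  have hpb : ((p 1 : ℕ) : ℚ) = D * b := by simpa using hp 1
  have hpD : p 0 + p 1 = D := by simpa [Fin.sum_univ_two] using hDp
  have hpl : IsPluri (r * r' * D) fun E => ω E ^ (r' * p 0) * ω' E ^ (r * p 1) := by
    have h1 := pluri_mul (pluri_pow hω (r' * p 0)) (pluri_pow hω' (r * p 1))
    have h2 : r * (r' * p 0) + r' * (r * p 1) = r * r' * D := by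
      rw [← hpD]
      ring
    rwa [h2] at h1
  have h0 : (fun E => ω E ^ (r' * p 0) * ω' E ^ (r * p 1)) D0 ≠ 0 :=
    mul_ne_zero (pow_ne_zero _ hωD) (pow_ne_zero _ hωD')
  refine ⟨r * r' * D, Nat.mul_pos (Nat.mul_pos hr hr') hDpos, _, fun h2 => h0 (congrFun h2 D0), hpl,
    fun P hP => (hc P (hdiv P hP) _ _ hpl _).1.2 (Or.inr ?_)⟩
  have h1 := ((hc P (hdiv P hP) _ ω hω _).1.1 (hωP P hP)).resolve_left hωD
  have h2 := ((hc P (hdiv P hP) _ ω' hω' _).1.1 (hωP' P hP)).resolve_left hωD'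
  change _ ≤ _ + ((P.ord (ω D0 ^ (r' * p 0) * ω' D0 ^ (r * p 1)) : ℤ) : ℚ)
  rw [P.ord_mul (pow_ne_zero _ hωD) (pow_ne_zero _ hωD'), P.ord_pow, P.ord_pow]
  have h3 : (0 : ℚ) ≤ r' * p 0 := by positivity
  have h4 : (0 : ℚ) ≤ r * p 1 := by positivity
  have h5 := mul_le_mul_of_nonneg_left h1 h3
  have h6 := mul_le_mul_of_nonneg_left h2 h4
  have h7 : ((D : ℚ)) = p 0 + p 1 := by exact_mod_cast hpD.symm
  push_cast
  have h8 : (r : ℚ) * r' * D * (a * Δ P + b * Δ' P) = r' * p 0 * (r * Δ P) +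
      r * p 1 * (r' * Δ' P) := by
    rw [hpa, hpb]
    ring
  have h9 : (r : ℚ) * r' * D * c P = r' * p 0 * (r * c P) + r * p 1 * (r' * c P) := by
    rw [h7]
    ring
  rw [h8, h9]
  linarith

end

section

variable {d R : ℕ} {K : Type} [Field K] [Algebra ℂ K] {N : ℕ} {y : Fin (N + 1) → K}
  {s : ℕ} {Δ : Fin s → Place ℂ K → ℚ} {x : Fin (d + 2) → K} (hx0 : x 0 ≠ 0)
    (hbas : IsTranscendenceBasis ℂ fun b : Fin (d + 1) => x b.succ / x 0)
    {F : Fin (d + 2) → MvPolynomial (Fin (d + 2)) ℂ} {dF : Fin (d + 2) → ℕ} (hd : ∀ k, 0 < dF k)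
    (hh : ∀ k, (F k).IsHomogeneous (dF k)) (hF0 : ∀ k, F k ≠ 0) (hN : Noc F) (hL : Lca F)
    {z : Fin R → K} {M : Fin R → ℕ} (hM : ∀ j, 0 < M j) {a : Fin R → Fin (d + 2) → ℕ}
    (hz : ∀ j, z j ^ M j = ∏ k, (aeval x (F k) / x 0 ^ dF k) ^ a j k)
    (hdiv : ∀ j, M j ∣ ∑ k, a j k * dF k)
    (hgen : IntermediateField.adjoin ℂ
      (Set.range (fun b : Fin (d + 1) => x b.succ / x 0) ∪ Set.range z) = ⊤)

include hx0 hbas hd hh hF0 hN hL hM hz hdiv hgen

/-- **The polytope of the pseudo-effective adjoint divisors.** -/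
theorem main_psef (hy : NormalModel y) (h : ∀ i, PrX F dF x y (Δ i))
    (hCar : ∀ i, ∃ r : ℕ, 0 < r ∧ ∀ Q, Divisorial (d + 1) Q → ∃ a, HasLD y (d + 1) (Δ i) r Q a) :
    ∃ E : Finset (Fin s → ℚ), (∀ p ∈ E, (∀ i, 0 ≤ p i) ∧ ∑ i, p i = 1) ∧
      ∀ t : Fin s → ℚ, (∀ i, 0 ≤ t i) → ∑ i, t i = 1 →
        (PsefP y (d + 1) (comb Δ t) ↔ t ∈ convexHull ℚ (E : Set (Fin s → ℚ))) ∧
        (PsefP y (d + 1) (comb Δ t) → QEff y (d + 1) (comb Δ t)) := by
  classical
  have hn : Algebra.trdeg ℂ K = ((d + 1 : ℕ) : Cardinal) := by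
    rw [← hbas.cardinalMk_eq_trdeg, Cardinal.mk_fin]
  obtain ⟨D0, hD0⟩ := Pool.Agent.W602.GT.exists_dual hbas
  have hD : ∀ i j, D0 i ((fun b : Fin (d + 1) => x b.succ / x 0) j) = if i = j then 1 else 0 := by
    intro i j
    have h3 := congrFun (congrFun hD0 i) j
    rwa [Matrix.of_apply, Matrix.one_apply] at h3
  obtain ⟨hfr, -, -⟩ := exists_cc hy hn hbas hD
  -- the sections
  have hsec : ∀ t : Fin s → ℚ, (∀ i, 0 ≤ t i) → ∑ i, t i = 1 → PsefP y (d + 1) (comb Δ t) →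
      QEff y (d + 1) (comb Δ t) := by
    intro t ht0 ht1 hps
    obtain ⟨hpr, r, hr, hcar⟩ := prx_comb hy hn hbas hD h hCar ht0 ht1
    obtain ⟨T, hT, N', w, hw, -⟩ := main_zarP hx0 hbas hd hh hF0 hN hL hM hz hdiv hgen hy hpr hr
      hcar hps
    exact ⟨T, hT, w 0, (hw 0).1, (hw 0).2.1, (hw 0).2.2⟩
  obtain ⟨t0, e, σ, hσ, hspan⟩ := main_fg (ρ := fun _ => 1) hx0 hbas hd hh hF0 hN hL hM hz hdiv
    hgen hy (fun _ => Nat.one_pos) h hCar
  obtain ⟨w, hw⟩ : ∃ w : Fin t0 → ℕ, w = fun j => ∑ i, e j i := ⟨_, rfl⟩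
  obtain ⟨G, hG⟩ : ∃ G : Finset (Fin t0), G = Finset.univ.filter fun j => σ j ≠ 0 ∧ 0 < w j :=
    ⟨_, rfl⟩
  obtain ⟨p, hp⟩ : ∃ p : Fin t0 → Fin s → ℚ, p = fun j i => (e j i : ℚ) / w j := ⟨_, rfl⟩
  have hGw : ∀ j ∈ G, (0 : ℚ) < w j := by
    intro j hj
    rw [hG, Finset.mem_filter] at hj
    exact_mod_cast hj.2.2
  have hp0 : ∀ j i, 0 ≤ p j i := by
    intro j i
    rw [hp]
    positivity
  have hp1 : ∀ j ∈ G, ∑ i, p j i = 1 := by
    intro j hj
    have h1 := hGw j hj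
    rw [hp]
    simp only
    rw [← Finset.sum_div]
    have h2 : ∑ i, (e j i : ℚ) = w j := by
      rw [hw]
      push_cast
      rfl
    rw [h2, div_self h1.ne']
  have hpE : ∀ j ∈ G, QEff y (d + 1) (comb Δ (p j)) := by
    intro j hj
    have h1 := hGw j hj
    have h2 : 0 < w j := by exact_mod_cast h1
    have hj' := hj
    rw [hG, Finset.mem_filter] at hj'
    obtain ⟨h3, h4⟩ := hσ j
    have hwt : wt (fun _ : Fin s => 1) (e j) = w j := by
      unfold wt
      rw [hw]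
      simp
    rw [hwt] at h3
    refine ⟨w j, h2, σ j, hj'.2.1, h3, fun P hP => ?_⟩
    have h5 := h4 P hP
    have h6 : dv (fun _ : Fin s => 1) Δ (e j) P = w j * comb Δ (p j) P := by
      unfold dv comb
      rw [hp, Finset.mul_sum]
      refine Finset.sum_congr rfl fun i _ => ?_
      field_simp
      simp
    rwa [h6] at h5
  refine ⟨G.image p, ?_, fun t ht0 ht1 => ⟨⟨fun hps => ?_, fun ht => ?_⟩, hsec t ht0 ht1⟩⟩
  · intro q hq
    obtain ⟨j, hj, rfl⟩ := Finset.mem_image.1 hq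
    exact ⟨hp0 j, hp1 j hj⟩
  · obtain ⟨r, hr, ω, hω0, hω, hωP⟩ := hsec t ht0 ht1 hps
    obtain ⟨D, q, hDpos, hDq, hq⟩ := exists_num ht0 ht1
    -- the section of degree `r q`
    have hωD : ω D0 ≠ 0 := fun h0 => hω0 (pluri_zero hfr hω h0)
    have hs : IsSec y (d + 1) (fun _ : Fin s => 1) Δ (fun i => r * q i) fun E => ω E ^ D := by
      have hwt : wt (fun _ : Fin s => 1) (fun i => r * q i) = r * D := by
        unfold wt
        rw [← hDq, Finset.mul_sum]
        simp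
      have hdv : ∀ P, dv (fun _ : Fin s => 1) Δ (fun i => r * q i) P = D * (r * comb Δ t P) := by
        intro P
        unfold dv comb
        rw [Finset.mul_sum, Finset.mul_sum]
        refine Finset.sum_congr rfl fun i _ => ?_
        have h1 := hq i
        push_cast
        rw [h1]
        ring
      refine ⟨by rw [hwt]; exact pluri_pow hω D, fun P hP => ?_⟩
      rw [hdv]
      intro E hE
      rcases hωP P hP E hE with h1 | h1
      · left
        change ω E ^ D = 0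
        rw [h1, zero_pow hDpos.ne']
      · right
        change _ ≤ ((P.ord (ω E ^ D) : ℤ) : ℚ)
        rw [P.ord_pow]
        have h2 : (0 : ℚ) ≤ D := by positivity
        have h3 := mul_le_mul_of_nonneg_left h1 h2
        push_cast
        linarith
    have h1 := hspan _ _ hs
    -- a monomial which is not zero
    obtain ⟨c, hc, hc0⟩ : ∃ c : Fin t0 → ℕ, ∑ j, c j • e j = (fun i => r * q i) ∧
        (∏ j, σ j D0 ^ c j) ≠ 0 := by
      by_contra hcon
      push Not at hcon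
      have h2 : ∀ τ ∈ Submodule.span ℂ {τ : (Fin (d + 1) → Derivation ℂ K K) → K |
          ∃ c : Fin t0 → ℕ, ∑ j, c j • e j = (fun i => r * q i) ∧
          τ = fun E => ∏ j, σ j E ^ c j}, τ D0 = 0 := by
        intro τ hτ
        induction hτ using Submodule.span_induction with
        | mem τ hτ =>
          obtain ⟨c, hc, rfl⟩ := hτ
          exact hcon c hc
        | zero => rfl
        | add τ τ' _ _ h3 h4 => rw [Pi.add_apply, h3, h4, add_zero]
        | smul b τ _ h3 => rw [Pi.smul_apply, h3, smul_zero]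
      exact pow_ne_zero D hωD (h2 _ h1)
    have hcG : ∀ j, c j * w j ≠ 0 → j ∈ G := by
      intro j hj
      rw [hG, Finset.mem_filter]
      refine ⟨Finset.mem_univ j, fun h3 => ?_, Nat.pos_of_ne_zero fun h3 => hj (by rw [h3, mul_zero])⟩
      rw [Finset.prod_ne_zero_iff] at hc0
      apply hc0 j (Finset.mem_univ j)
      rw [h3, Pi.zero_apply, zero_pow]
      rintro h4
      exact hj (by rw [h4, zero_mul])
    have hrD : (0 : ℚ) < r * D := by positivity
    -- the weights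
    have hce : ∀ i, ∑ j ∈ G, (c j : ℚ) * w j * p j i = r * D * t i := by
      intro i
      have h3 := congrFun hc i
      rw [Finset.sum_apply] at h3
      have h4 : ((∑ j, c j * e j i : ℕ) : ℚ) = ((r * q i : ℕ) : ℚ) := by
        have h5 : ∑ j, c j * e j i = r * q i := by
          simpa [Pi.smul_apply, smul_eq_mul] using h3
        exact_mod_cast h5
      push_cast at h4
      rw [hq] at h4
      rw [show (r : ℚ) * D * t i = r * (D * t i) by ring, ← h4]
      have h6 : ∑ j ∈ G, (c j : ℚ) * w j * p j i = ∑ j ∈ G, (c j : ℚ) * e j i := by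
        refine Finset.sum_congr rfl fun j hj => ?_
        have h7 := hGw j hj
        rw [hp]
        field_simp
      rw [h6]
      refine Finset.sum_subset (Finset.subset_univ _) fun j _ hj => ?_
      have h7 : c j * w j = 0 := by
        by_contra h8
        exact hj (hcG j h8)
      rcases Nat.mul_eq_zero.1 h7 with h8 | h8
      · rw [h8, Nat.cast_zero, zero_mul]
      · have h9 : e j i = 0 := by
          rw [hw] at h8
          exact Finset.sum_eq_zero_iff.1 h8 i (Finset.mem_univ i)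
        rw [h9, Nat.cast_zero, mul_zero]
    have hsum : ∑ j ∈ G, (c j : ℚ) * w j / (r * D) = 1 := by
      rw [← Finset.sum_div, div_eq_one_iff_eq hrD.ne']
      have h3 : ∑ j ∈ G, (c j : ℚ) * w j = ∑ j ∈ G, ∑ i, (c j : ℚ) * w j * p j i := by
        refine Finset.sum_congr rfl fun j hj => ?_
        rw [← Finset.mul_sum, hp1 j hj, mul_one]
      rw [h3, Finset.sum_comm, Finset.sum_congr rfl fun i _ => hce i, ← Finset.mul_sum, ht1, mul_one]
    have ht : t = ∑ j ∈ G, ((c j : ℚ) * w j / (r * D)) • p j := by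
      funext i
      rw [Finset.sum_apply]
      have h3 := hce i
      have h4 : ∑ j ∈ G, (((c j : ℚ) * w j / (r * D)) • p j) i =
          (∑ j ∈ G, (c j : ℚ) * w j * p j i) / (r * D) := by
        rw [Finset.sum_div]
        refine Finset.sum_congr rfl fun j _ => ?_
        rw [Pi.smul_apply, smul_eq_mul]
        ring
      rw [h4, h3]
      field_simp
    rw [ht]
    refine (convex_convexHull ℚ _).sum_mem (fun j _ => by positivity) hsum fun j hj => ?_
    refine subset_convexHull ℚ _ ?_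
    rw [Finset.coe_image]
    exact ⟨j, hj, rfl⟩
  · refine psef_of_qeff hy hn hbas hD ?_
    have hconv : Convex ℚ {t : Fin s → ℚ | QEff y (d + 1) (comb Δ t)} := by
      intro t1 h1 t2 h2 a b ha hb hab
      have h3 := qeff_conv hy hn hbas hD h1 h2 ha hb hab
      have h4 : (fun P => a * comb Δ t1 P + b * comb Δ t2 P) = comb Δ (a • t1 + b • t2) := by
        funext P
        unfold comb
        rw [Finset.mul_sum, Finset.mul_sum, ← Finset.sum_add_distrib]
        refine Finset.sum_congr rfl fun i _ => ?_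
        simp only [Pi.add_apply, Pi.smul_apply, smul_eq_mul]
        ring
      rw [h4] at h3
      exact h3
    refine convexHull_min ?_ hconv ht
    intro q hq
    rw [Finset.coe_image] at hq
    obtain ⟨j, hj, rfl⟩ := hq
    exact hpE j hj

end

end Pool.Agent.J4.H19.LC
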